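import Pool.Agent.H95.ESP.Stmts

/-!
# Board esp, row PRM: the choice of the parameters
-/

set_option autoImplicit false

namespace ESP
open Filter

theorem prm_thm (hPGR : S_PGR) (hBIN : S_BIN) : S_PRM := by
  intro α C ε hα hC hε
  have hα0 : 0 < α := by linarith
  obtain ⟨γ, hγ⟩ : ∃ γ : ℝ, γ = 1 - 1 / α := ⟨_, rfl⟩
  have hinv : 0 < 1 / α := by positivity
  have hγ0 : 0 < γ := by
    have : 1 / α < 1 := by rw [div_lt_one hα0]; exact hα
    linarith
  have hγ1 : γ < 1 := by linarith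
  obtain ⟨e, he⟩ : ∃ e : ℝ, e = min ε (1 / 8) := ⟨_, rfl⟩
  have he0 : 0 < e := by rw [he]; exact lt_min hε (by norm_num)
  have heε : e ≤ ε := by rw [he]; exact min_le_left _ _
  have he8 : e ≤ 1 / 8 := by rw [he]; exact min_le_right _ _
  obtain ⟨η, hη⟩ : ∃ η : ℝ, η = min e (γ / 4) := ⟨_, rfl⟩
  have hη0 : 0 < η := by rw [hη]; exact lt_min he0 (by positivity)
  have hηe : η ≤ e := by rw [hη]; exact min_le_left _ _
  have hηγ : η ≤ γ / 4 := by rw [hη]; exact min_le_right _ _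
  obtain ⟨y₀, hy₀⟩ := hPGR α C η hα hC hη0
  obtain ⟨δ, hδ⟩ : ∃ δ : ℝ, δ = e / (4 * α) := ⟨_, rfl⟩
  have hδ0 : 0 < δ := by rw [hδ]; positivity
  have hαδ : α * δ = e / 4 := by rw [hδ]; field_simp
  have hYe : ∀ᶠ y : ℝ in atTop, y₀ ≤ y ∧ Real.exp 1 ≤ y ∧ 10 / C ^ (1 / α) ≤ y ^ η :=
    (eventually_ge_atTop y₀).and ((eventually_ge_atTop (Real.exp 1)).and
      ((tendsto_rpow_atTop hη0).eventually_ge_atTop _))
  obtain ⟨Y, hY⟩ := eventually_atTop.1 hYe
  have hXe : ∀ᶠ X : ℝ in atTop, Y ≤ C * (Real.log X / 4) ^ α ∧ Real.log X / 4 ≤ X ^ δ ∧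
      C * 2 ^ α ≤ X ^ (α * δ) := by
    refine Filter.Eventually.and ?_ (Filter.Eventually.and ?_ ?_)
    · have h1 : Tendsto (fun X : ℝ => C * (Real.log X / 4) ^ α) atTop atTop :=
        Tendsto.const_mul_atTop hC ((tendsto_rpow_atTop hα0).comp
          (Real.tendsto_log_atTop.atTop_div_const (by norm_num)))
      exact h1.eventually_ge_atTop _
    · have h2 := (isLittleO_log_rpow_atTop hδ0).bound (show (0 : ℝ) < 1 by norm_num)
      filter_upwards [h2, eventually_ge_atTop (1 : ℝ)] with X hX hX1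
      have hl : 0 ≤ Real.log X := Real.log_nonneg hX1
      rw [Real.norm_of_nonneg hl, Real.norm_of_nonneg (Real.rpow_nonneg (by linarith) _)] at hX
      linarith
    · exact (tendsto_rpow_atTop (by positivity)).eventually_ge_atTop _
  obtain ⟨X₀, hX₀⟩ := eventually_atTop.1 hXe
  refine ⟨δ, max X₀ 4, hδ0, le_max_right _ _, ?_⟩
  intro X hXX L hL0 hLX n hn
  obtain ⟨h1, h2, h3⟩ := hX₀ X (le_trans (le_max_left _ _) hXX)
  have hX4 : 4 ≤ X := le_trans (le_max_right _ _) hXX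
  have hX0 : 0 < X := by linarith
  have hX1 : 1 ≤ X := by linarith
  have hlX : 0 < Real.log X := Real.log_pos (by linarith)
  obtain ⟨u, hu⟩ : ∃ u : ℝ, u = L + Real.log X / 4 := ⟨_, rfl⟩
  obtain ⟨y, hy⟩ : ∃ y : ℝ, y = C * u ^ α := ⟨_, rfl⟩
  rw [← hu, ← hy] at hn ⊢
  have hu0 : 0 < u := by rw [hu]; positivity
  have hulog : Real.log X / 4 ≤ u := by rw [hu]; linarith
  have hyY : Y ≤ y := by
    rw [hy]
    refine h1.trans (mul_le_mul_of_nonneg_left ?_ hC.le)
    exact Real.rpow_le_rpow (by positivity) hulog hα0.le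
  obtain ⟨hyy₀, hyexp, hyη⟩ := hY y hyY
  have hy0 : 0 < y := lt_of_lt_of_le (Real.exp_pos 1) hyexp
  have hlogy : 1 ≤ Real.log y := by
    rw [Real.le_log_iff_exp_le hy0]; exact hyexp
  have hy1 : 1 ≤ y := by
    have := Real.add_one_le_exp (1 : ℝ)
    linarith
  -- `u = (y/C)^(1/α)`
  have huy : (y / C) ^ (1 / α) = u := by
    have : y / C = u ^ α := by rw [hy]; field_simp
    rw [this, ← Real.rpow_mul hu0.le]
    rw [show α * (1 / α) = 1 by field_simp, Real.rpow_one]
  have huC : C ^ (1 / α) * u = y ^ (1 / α) := by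
    rw [← huy, Real.div_rpow hy0.le hC.le]
    have : C ^ (1 / α) ≠ 0 := (Real.rpow_pos_of_pos hC _).ne'
    field_simp
  have hnbig : y ^ (1 - η) ≤ (n : ℝ) := by
    refine hy₀ y hyy₀ n ?_
    rw [huy]
    have : L + Real.log X ≤ 5 * u := by rw [hu]; linarith
    linarith
  -- upper bound of `y`
  have hyX : y ≤ X ^ (e / 2) := by
    have hu2 : u ≤ 2 * X ^ δ := by rw [hu]; linarith
    have : u ^ α ≤ 2 ^ α * X ^ (α * δ) := by
      calc u ^ α ≤ (2 * X ^ δ) ^ α := Real.rpow_le_rpow hu0.le hu2 hα0.le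
        _ = 2 ^ α * (X ^ δ) ^ α := Real.mul_rpow (by norm_num) (by positivity)
        _ = 2 ^ α * X ^ (α * δ) := by rw [← Real.rpow_mul hX0.le, mul_comm δ α]
    calc y = C * u ^ α := hy
      _ ≤ C * (2 ^ α * X ^ (α * δ)) := mul_le_mul_of_nonneg_left this hC.le
      _ = (C * 2 ^ α) * X ^ (α * δ) := by ring
      _ ≤ X ^ (α * δ) * X ^ (α * δ) := mul_le_mul_of_nonneg_right h3 (by positivity)
      _ = X ^ (α * δ + α * δ) := by rw [Real.rpow_add hX0]
      _ = X ^ (e / 2) := by rw [hαδ]; congr 1; ring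
  have hlogyX : Real.log y ≤ e / 2 * Real.log X := by
    have := Real.log_le_log hy0 hyX
    rwa [Real.log_rpow hX0] at this
  obtain ⟨k, hk⟩ : ∃ k : ℕ, k = ⌊Real.log X / (4 * Real.log y)⌋₊ := ⟨_, rfl⟩
  have hkq0 : 0 ≤ Real.log X / (4 * Real.log y) := by positivity
  have hkle : (k : ℝ) ≤ Real.log X / (4 * Real.log y) := by rw [hk]; exact Nat.floor_le hkq0
  have hkgt : Real.log X / (4 * Real.log y) - 1 < k := by
    rw [hk]; linarith [Nat.lt_floor_add_one (Real.log X / (4 * Real.log y))]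
  have hklog : (k : ℝ) * Real.log y ≤ Real.log X / 4 := by
    rw [le_div_iff₀ (by positivity)] at hkle
    linarith
  have hklog' : Real.log X / 4 - Real.log y ≤ k * Real.log y := by
    have h5 : Real.log X < (k + 1) * (4 * Real.log y) := by
      rw [← div_lt_iff₀ (by positivity)]; linarith
    linarith
  have hk1 : 1 ≤ k := by
    have h6 : e / 2 * Real.log X ≤ 1 / 16 * Real.log X :=
      mul_le_mul_of_nonneg_right (by linarith) hlX.le
    have h7 : (0 : ℝ) < k * Real.log y := by linarith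
    have h8 : (0 : ℝ) < k := by
      by_contra h9
      have h10 : (k : ℝ) * Real.log y ≤ 0 :=
        mul_nonpos_of_nonpos_of_nonneg (not_lt.1 h9) (by linarith)
      linarith
    exact_mod_cast h8
  have hk1R : (1 : ℝ) ≤ k := by exact_mod_cast hk1
  have hku : (k : ℝ) ≤ u := by
    have : (k : ℝ) ≤ k * Real.log y := by
      calc (k : ℝ) = k * 1 := (mul_one _).symm
        _ ≤ k * Real.log y := mul_le_mul_of_nonneg_left hlogy (by linarith)
    linarith
  -- `n ≥ 10 u y^(γ-2η)`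
  have hmain : 10 * k * y ^ (γ - 2 * η) ≤ n := by
    have hCp : 0 < C ^ (1 / α) := Real.rpow_pos_of_pos hC _
    have h10 : 10 * u ≤ y ^ η * y ^ (1 / α) := by
      rw [div_le_iff₀ hCp] at hyη
      calc 10 * u ≤ (y ^ η * C ^ (1 / α)) * u := mul_le_mul_of_nonneg_right hyη hu0.le
        _ = y ^ η * (C ^ (1 / α) * u) := by ring
        _ = y ^ η * y ^ (1 / α) := by rw [huC]
    calc 10 * k * y ^ (γ - 2 * η) ≤ 10 * u * y ^ (γ - 2 * η) := by
          refine mul_le_mul_of_nonneg_right ?_ (by positivity)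
          linarith
      _ ≤ (y ^ η * y ^ (1 / α)) * y ^ (γ - 2 * η) := mul_le_mul_of_nonneg_right h10 (by positivity)
      _ = y ^ (1 - η) := by
          rw [← Real.rpow_add hy0, ← Real.rpow_add hy0]
          congr 1
          rw [hγ]; ring
      _ ≤ n := hnbig
  have hexp0 : 0 ≤ γ - 2 * η := by linarith
  have hyge : 1 ≤ y ^ (γ - 2 * η) := Real.one_le_rpow hy1 hexp0
  have h2k : 2 * k ≤ n := by
    have : (2 * k : ℝ) ≤ n := by
      calc (2 * k : ℝ) ≤ 10 * k * 1 := by linarith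
        _ ≤ 10 * k * y ^ (γ - 2 * η) := mul_le_mul_of_nonneg_left hyge (by positivity)
        _ ≤ n := hmain
    exact_mod_cast this
  have hbin := hBIN n k h2k hk1
  refine ⟨k, ⌊X ^ (1 / 4 : ℝ)⌋₊, ?_, ?_, ?_, ?_⟩
  · rw [Nat.one_le_floor_iff]
    exact Real.one_le_rpow hX1 (by norm_num)
  · refine Nat.le_floor ?_
    push_cast
    have hfl : (⌊y⌋₊ : ℝ) ≤ y := Nat.floor_le hy0.le
    calc (⌊y⌋₊ : ℝ) ^ k ≤ y ^ k := pow_le_pow_left₀ (by positivity) hfl k
      _ = Real.exp (k * Real.log y) := by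
          rw [mul_comm, Real.exp_mul, Real.exp_log hy0, Real.rpow_natCast]
      _ ≤ Real.exp (Real.log X / 4) := Real.exp_le_exp.2 hklog
      _ = X ^ (1 / 4 : ℝ) := by
          rw [Real.rpow_def_of_pos hX0]
          congr 1
          ring
  · have hfl : (⌊X ^ (1 / 4 : ℝ)⌋₊ : ℝ) ≤ X ^ (1 / 4 : ℝ) := Nat.floor_le (by positivity)
    calc (⌊X ^ (1 / 4 : ℝ)⌋₊ : ℝ) ^ 2 ≤ (X ^ (1 / 4 : ℝ)) ^ 2 :=
          pow_le_pow_left₀ (by positivity) hfl 2
      _ = X ^ (1 / 2 : ℝ) := by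
          rw [← Real.rpow_natCast, ← Real.rpow_mul hX0.le]
          norm_num
  · refine le_trans ?_ hbin
    have hdiv : y ^ (γ - 2 * η) ≤ (n : ℝ) / (10 * k) := by
      rw [le_div_iff₀ (by positivity)]
      linarith
    calc X ^ ((1 - 1 / α) / 4 - ε) ≤ X ^ (γ / 4 - e) :=
          Real.rpow_le_rpow_of_exponent_le hX1 (by rw [hγ]; linarith)
      _ = Real.exp (Real.log X * (γ / 4 - e)) := Real.rpow_def_of_pos hX0 _
      _ ≤ Real.exp (Real.log y * (γ - 2 * η) * k) := by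
          refine Real.exp_le_exp.2 ?_
          have hA : (γ - 2 * η) * (Real.log X / 4 - Real.log y) ≤
              (γ - 2 * η) * (k * Real.log y) := mul_le_mul_of_nonneg_left hklog' hexp0
          have hB : (γ - 2 * η) * Real.log y ≤ e / 2 * Real.log X := by
            calc (γ - 2 * η) * Real.log y ≤ 1 * Real.log y :=
                  mul_le_mul_of_nonneg_right (by linarith) (by linarith)
              _ ≤ e / 2 * Real.log X := by linarith
          have hC' : η / 2 * Real.log X ≤ e / 2 * Real.log X :=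
            mul_le_mul_of_nonneg_right (by linarith) hlX.le
          nlinarith [hA, hB, hC']
      _ = (y ^ (γ - 2 * η)) ^ k := by
          rw [← Real.rpow_natCast, ← Real.rpow_mul hy0.le, Real.rpow_def_of_pos hy0]
          congr 1
          ring
      _ ≤ ((n : ℝ) / (10 * k)) ^ k := pow_le_pow_left₀ (by positivity) hdiv k

end ESP
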